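import Pool.Agent.Helper57.TX.Defs

/-!
# NR: number rigidity of the zeros: definitions

`phi L` is the mean over the scales `2^j ∈ [L^(1/6), L^(1/3)]` of the kernels `(3/2) q (2 π x/2^j)`.
-/

set_option autoImplicit false
open MeasureTheory Set Filter Topology
open Pool.Agent.Helper57.Zeta Pool.Agent.Helper57.LH Pool.Agent.Helper57.ED
open Pool.Agent.Helper54.LG (za zb qk SS MM)
open Pool.Agent.Helper93.UG (zc sp)
open Pool.Agent.Helper69.UG (XX NX)
open Pool.Agent.Helper57.TX (QX DP rs)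

namespace Pool.Agent.Helper24.NR

/-- The scales: `L^(1/6) ≤ 2^j ≤ L^(1/3)`. -/
noncomputable def Js (L : ℝ) : Finset ℕ :=
  (Finset.range (⌊L⌋₊ + 1)).filter fun j => L ≤ (2:ℝ) ^ (6 * j) ∧ (2:ℝ) ^ (3 * j) ≤ L

/-- The weight of a scale. -/
noncomputable def wJ (L : ℝ) : ℝ := 3 / (2 * ((Js L).card : ℝ))

/-- The test function. -/
noncomputable def phi (L x : ℝ) : ℝ := wJ L * ∑ j ∈ Js L, qk 0 (2 * Real.pi * x / 2 ^ j)

/-- Its integral, up to the tails. -/
noncomputable def AL (L : ℝ) : ℝ := wJ L * ∑ j ∈ Js L, (2:ℝ) ^ j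

/-- The prime sum. -/
noncomputable def SL (T L t : ℝ) : ℝ := wJ L * ∑ j ∈ Js L, SS (XX T (2 ^ j)) t

/-- The linear statistic over all zeros. -/
noncomputable def Tot (T L t : ℝ) : ℝ := ∑' ρ : ZS, mx ρ * phi L (((ρ : ℂ).im - t) / sp T)

open Classical in
/-- Its part at distance more than `L` mean spacings. -/
noncomputable def Out (T L t : ℝ) : ℝ :=
  ∑' ρ : ZS, mx ρ * (if |(ρ : ℂ).im - t| ≤ L * sp T then 0 else phi L (((ρ : ℂ).im - t) / sp T))

open Classical in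
/-- A majorant. -/
noncomputable def OutM (T L t : ℝ) : ℝ :=
  ∑' ρ : ZS, mx ρ * (if |(ρ : ℂ).im - t| ≤ L / 2 * sp T then 0 else (L ^ (1 / 3 : ℝ) * sp T / ((ρ : ℂ).im - t)) ^ 2)

/-- The window (`a = 1`) and its double (`a = 2`). -/
noncomputable def Wn (T L a t : ℝ) : Set ℝ := Icc (t - a * L ^ (1 / 16 : ℝ) * sp T) (t + a * L ^ (1 / 16 : ℝ) * sp T)

/-- Coefficients of `SS X`, squares of primes. -/
noncomputable def rq (X : ℝ) (p : ℕ) : ℝ := 2 / X * (Real.log p / √p) * (1 - 2 * Real.log p / X) ^ 2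

/-- The largest length. -/
noncomputable def XM (T L : ℝ) : ℝ := Real.log T / L ^ (1 / 6 : ℝ)

open Classical in
/-- Coefficients of `SL`, primes. -/
noncomputable def rL (T L : ℝ) (p : ℕ) : ℝ :=
  wJ L * ∑ j ∈ Js L, if Real.log p ≤ XX T (2 ^ j) then rs (XX T (2 ^ j)) p else 0

end Pool.Agent.Helper24.NR
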