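import Pool.Agent.Helper24.NR.Glue

/-!
# NR: glue, measure part
-/

set_option autoImplicit false
open MeasureTheory Set Filter Topology
open Pool.Agent.Helper57.Zeta Pool.Agent.Helper57.LH Pool.Agent.Helper57.ED
open Pool.Agent.Helper54.LG (za zb qk SS MM)
open Pool.Agent.Helper93.UG (zc sp)
open Pool.Agent.Helper69.UG (XX NX)

namespace Pool.Agent.Helper24.NR

/-- stub phi_near -/
def PhiNear : Prop := ∃ C : ℝ, 1 ≤ C ∧ ∀ L x : ℝ, C ≤ L → |x| ≤ L ^ (1 / 16 : ℝ) →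
    0 ≤ 1 - phi L x ∧ 1 - phi L x ≤ C * L ^ (-(5 / 24) : ℝ)

/-- stub tot_thick -/
def TotThick : Prop := ∃ c C T₀ : ℝ, 0 < c ∧ c ≤ 1 / 100 ∧ 1 ≤ C ∧ ∀ T L e : ℝ, T₀ ≤ T → C ≤ L → L ≤ Real.log T → 0 < e → e ≤ 1 →
    ∃ E : Set ℝ, volume E ≤ ENNReal.ofReal (C * L ^ (-(c * e ^ 2)) * T) ∧
    ∀ t ∈ Icc (T / 2) (3 * T), ∀ u : ℝ, |u - t| ≤ sp T → e < |Tot T L u - AL L| → t ∈ E

/-- stub outm_tail -/
def OutmTail : Prop := ∃ C T₀ : ℝ, 1 ≤ C ∧ ∀ T L : ℝ, T₀ ≤ T → C ≤ L → L ≤ Real.log T →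
    volume {t : ℝ | t ∈ Icc (T / 2) (3 * T) ∧ L ^ (-(1 / 6) : ℝ) < OutM T L t} ≤
      ENNReal.ofReal (C * L ^ (-(1 / 6) : ℝ) * T)

/-- stub out_le -/
def OutLe : Prop := ∃ C : ℝ, 1 ≤ C ∧ ∀ T L t u : ℝ, 3 ≤ T → C ≤ L → |t - u| ≤ sp T → Out T L u ≤ C * OutM T L t

/-- stub win_count -/
def WinCount : Prop := ∃ C T₀ : ℝ, 1 ≤ C ∧ ∀ T L : ℝ, T₀ ≤ T → C ≤ L → L ≤ Real.log T →
    volume {t : ℝ | t ∈ Icc (T / 2) (3 * T) ∧ L ^ (1 / 8 : ℝ) < (zc (Wn T L 2 t) : ℝ)} ≤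
      ENNReal.ofReal (C * L ^ (-(1 / 16) : ℝ) * T)

/-- Palm lemma -/
def Palm : Prop := ∃ C T₀ : ℝ, 0 < C ∧ ∀ T : ℝ, T₀ ≤ T → ∀ (B : Set ℝ) (v : ℝ), 0 ≤ v → volume B ≤ ENNReal.ofReal (v * T) →
  (zc {g : ℝ | T ≤ g ∧ g ≤ 2 * T ∧ Icc g (g + sp T) ⊆ B} : ℝ) ≤ C * √v * (T * Real.log T)

/-- small `e`: the bound is trivial -/
lemma triv_e {c A e L : ℝ} (hc : 0 < c) (hc1 : c ≤ 1) (hA : 0 ≤ A) (hL : 1 ≤ L) (he0 : 0 ≤ e) (he : e ≤ A * L ^ (-(1 / 12) : ℝ)) :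
    Real.exp (-(6 * A ^ 2)) ≤ L ^ (-(c * e ^ 2)) := by
  have hL0 : 0 < L := by linarith
  rw [Real.rpow_def_of_pos hL0, Real.exp_le_exp]
  have h1 : e ^ 2 ≤ A ^ 2 * L ^ (-(1 / 6) : ℝ) := by
    calc e ^ 2 ≤ (A * L ^ (-(1 / 12) : ℝ)) ^ 2 := by gcongr
      _ = A ^ 2 * L ^ (-(1 / 6) : ℝ) := by
          rw [mul_pow, ← Real.rpow_natCast (L ^ (-(1 / 12) : ℝ)) 2, ← Real.rpow_mul hL0.le]
          norm_num
  have h2 : Real.log L ≤ 6 * L ^ (1 / 6 : ℝ) := by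
    have := Real.log_le_rpow_div hL0.le (show (0:ℝ) < 1 / 6 by norm_num)
    linarith
  have h3 : 0 ≤ Real.log L := Real.log_nonneg hL
  have h4 : Real.log L * e ^ 2 ≤ 6 * A ^ 2 := by
    calc Real.log L * e ^ 2 ≤ (6 * L ^ (1 / 6 : ℝ)) * (A ^ 2 * L ^ (-(1 / 6) : ℝ)) := by gcongr
      _ = 6 * A ^ 2 * (L ^ (1 / 6 : ℝ) * L ^ (-(1 / 6) : ℝ)) := by ring
      _ = 6 * A ^ 2 := by
          rw [← Real.rpow_add hL0]
          norm_num
  have h5 : c * (Real.log L * e ^ 2) ≤ 1 * (Real.log L * e ^ 2) := mul_le_mul_of_nonneg_right hc1 (by positivity)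
  nlinarith

/-- the thick bad set -/
theorem core (h1 : PhiNear) (h2 : TotThick) (h3 : OutmTail) (h4 : OutLe) (h5 : WinCount) :
    ∃ c A C T₀ : ℝ, 0 < c ∧ c ≤ 1 ∧ 1 ≤ A ∧ 1 ≤ C ∧ ∀ T L e : ℝ, T₀ ≤ T → C ≤ L → L ≤ Real.log T → 0 < e → e ≤ 1 →
      A * L ^ (-(1 / 12) : ℝ) ≤ e → ∃ E : Set ℝ, volume E ≤ ENNReal.ofReal (C * L ^ (-(c * e ^ 2)) * T) ∧
      ∀ t ∈ Icc (T / 2) (3 * T), ∀ u : ℝ, |u - t| ≤ sp T → Bad T L e u → t ∈ E := by
  obtain ⟨A, hA, hbad⟩ := bad_imp h1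
  obtain ⟨c, C2, T2, hc, hc1, hC2, hT2⟩ := h2
  obtain ⟨C3, T3, hC3, hT3⟩ := h3
  obtain ⟨C4, hC4, hT4⟩ := h4
  obtain ⟨C5, T5, hC5, hT5⟩ := h5
  refine ⟨c / 4, A, C2 + C3 + C5 + A + C4 ^ 12, max (max T2 T3) (max T5 3), by positivity, by linarith, hA, ?_, ?_⟩
  · have : 0 < C4 ^ 12 := by positivity
    linarith
  intro T L e hT hCL hLT he he1 hAe
  simp only [max_le_iff] at hT
  obtain ⟨⟨hTa, hTb⟩, hTc, hTd⟩ := hT
  have hC4p : 0 < C4 ^ 12 := by positivity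
  have hL1 : 1 ≤ L := by linarith
  have hL0 : 0 < L := by linarith
  have hT1 : 1 < T := by linarith
  have hs := sp_pos hT1
  obtain ⟨E, hE, hEt⟩ := hT2 T L (e / 2) hTa (by linarith) hLT (by positivity) (by linarith)
  refine ⟨E ∪ {t : ℝ | t ∈ Icc (T / 2) (3 * T) ∧ L ^ (-(1 / 6) : ℝ) < OutM T L t} ∪
    {t : ℝ | t ∈ Icc (T / 2) (3 * T) ∧ L ^ (1 / 8 : ℝ) < (zc (Wn T L 2 t) : ℝ)}, ?_, ?_⟩
  · have a1 := hT3 T L hTb (by linarith) hLT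
    have a2 := hT5 T L hTc (by linarith) hLT
    have ee : (c / 4) * e ^ 2 ≤ 1 / 16 := by
      have : e ^ 2 ≤ 1 := pow_le_one₀ he.le he1
      nlinarith
    have b1 : L ^ (-(c * (e / 2) ^ 2)) = L ^ (-(c / 4 * e ^ 2)) := by
      congr 1
      ring
    have b2 : L ^ (-(1 / 6) : ℝ) ≤ L ^ (-(c / 4 * e ^ 2)) := Real.rpow_le_rpow_of_exponent_le hL1 (by linarith)
    have b3 : L ^ (-(1 / 16) : ℝ) ≤ L ^ (-(c / 4 * e ^ 2)) := Real.rpow_le_rpow_of_exponent_le hL1 (by linarith)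
    refine (measure_union_le _ _).trans ((add_le_add ((measure_union_le _ _).trans (add_le_add hE a1)) a2).trans ?_)
    rw [← ENNReal.ofReal_add (by positivity) (by positivity), ← ENNReal.ofReal_add (by positivity) (by positivity)]
    apply ENNReal.ofReal_le_ofReal
    rw [b1]
    set P := L ^ (-(c / 4 * e ^ 2)) with hP
    have hP0 : 0 < P := by positivity
    have hT0 : 0 < T := by linarith
    have c1 : C3 * L ^ (-(1 / 6) : ℝ) * T ≤ C3 * P * T := by gcongr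
    have c2 : C5 * L ^ (-(1 / 16) : ℝ) * T ≤ C5 * P * T := by gcongr
    have c3 : 0 ≤ (A + C4 ^ 12) * P * T := by positivity
    nlinarith
  · intro t ht u hu hB
    rcases hbad T L e u hTd (by linarith) hAe hB with h | h | h
    · exact Or.inl (Or.inl (hEt t ht u hu h))
    · refine Or.inl (Or.inr ⟨ht, ?_⟩)
      have d1 := hT4 T L t u hTd (by
        have : C4 ≤ C4 ^ 12 := le_self_pow₀ hC4 (by norm_num)
        linarith) (by rw [abs_sub_comm]; exact hu)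
      have d2 : C4 * L ^ (-(1 / 6) : ℝ) ≤ L ^ (-(1 / 12) : ℝ) := by
        have d3 : C4 ≤ L ^ (1 / 12 : ℝ) := by
          have : (C4 ^ 12) ^ (1 / 12 : ℝ) ≤ L ^ (1 / 12 : ℝ) := Real.rpow_le_rpow (by positivity) (by linarith) (by norm_num)
          rwa [← Real.rpow_natCast C4 12, ← Real.rpow_mul (by linarith), show ((12:ℕ):ℝ) * (1 / 12) = 1 by norm_num,
            Real.rpow_one] at this
        calc C4 * L ^ (-(1 / 6) : ℝ) ≤ L ^ (1 / 12 : ℝ) * L ^ (-(1 / 6) : ℝ) := by gcongr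
          _ = L ^ (-(1 / 12) : ℝ) := by
              rw [← Real.rpow_add hL0]
              norm_num
      have d4 : C4 * L ^ (-(1 / 6) : ℝ) < C4 * OutM T L t := by linarith
      exact lt_of_mul_lt_mul_left d4 (by linarith)
    · refine Or.inr ⟨ht, h.trans_le ?_⟩
      have f1 : Wn T L 1 u ⊆ Wn T L 2 t := by
        have hl : 1 ≤ L ^ (1 / 16 : ℝ) := Real.one_le_rpow hL1 (by norm_num)
        have f2 := abs_le.1 hu
        have f3 : sp T ≤ L ^ (1 / 16 : ℝ) * sp T := le_mul_of_one_le_left hs.le hl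
        unfold Wn
        apply Icc_subset_Icc <;> nlinarith [f2.1, f2.2]
      exact_mod_cast Pool.Agent.Helper56.UG.zc_mono f1 (J := Wn T L 2 t) subset_rfl

/-- K1: the points -/
theorem final_t (h1 : PhiNear) (h2 : TotThick) (h3 : OutmTail) (h4 : OutLe) (h5 : WinCount) :
    ∃ c C T₀ : ℝ, 0 < c ∧ 1 ≤ C ∧ ∀ T L e : ℝ, T₀ ≤ T → C ≤ L → L ≤ Real.log T → 0 < e → e ≤ 1 →
    volume {t : ℝ | T ≤ t ∧ t ≤ 2 * T ∧ Bad T L e t} ≤ ENNReal.ofReal (C * L ^ (-(c * e ^ 2)) * T) := by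
  obtain ⟨c, A, C, T₀, hc, hc1, hA, hC, H⟩ := core h1 h2 h3 h4 h5
  refine ⟨c, max C (Real.exp (6 * A ^ 2)), max T₀ 3, hc, hC.trans (le_max_left _ _), ?_⟩
  intro T L e hT hL hLT he he1
  simp only [max_le_iff] at hT hL
  have hT1 : 1 < T := by linarith
  have hT0 : 0 < T := by linarith
  have hs := sp_pos hT1
  have hL1 : 1 ≤ L := by linarith
  by_cases hAe : A * L ^ (-(1 / 12) : ℝ) ≤ e
  · obtain ⟨E, hE, hEt⟩ := H T L e hT.1 hL.1 hLT he he1 hAe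
    refine (measure_mono ?_).trans (hE.trans (ENNReal.ofReal_le_ofReal ?_))
    · rintro t ⟨ht1, ht2, ht3⟩
      exact hEt t ⟨by linarith, by linarith⟩ t (by simp [hs.le]) ht3
    · gcongr
      exact le_max_left _ _
  · push Not at hAe
    have h6 := triv_e hc hc1 (by linarith : 0 ≤ A) hL1 he.le hAe.le
    calc volume {t : ℝ | T ≤ t ∧ t ≤ 2 * T ∧ Bad T L e t} ≤ volume (Icc T (2 * T)) :=
          measure_mono fun t ht => ⟨ht.1, ht.2.1⟩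
      _ = ENNReal.ofReal (1 * T) := by rw [Real.volume_Icc]; congr 1; ring
      _ ≤ _ := by
          apply ENNReal.ofReal_le_ofReal
          apply mul_le_mul_of_nonneg_right _ hT0.le
          calc (1:ℝ) = Real.exp (6 * A ^ 2) * Real.exp (-(6 * A ^ 2)) := by rw [← Real.exp_add]; simp
            _ ≤ max C (Real.exp (6 * A ^ 2)) * L ^ (-(c * e ^ 2)) := by
                gcongr
                exact le_max_right _ _

/-- K2: the ordinates -/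
theorem final_g (h1 : PhiNear) (h2 : TotThick) (h3 : OutmTail) (h4 : OutLe) (h5 : WinCount) (h6 : Palm) :
    ∃ c C T₀ : ℝ, 0 < c ∧ 1 ≤ C ∧ ∀ T L e : ℝ, T₀ ≤ T → C ≤ L → L ≤ Real.log T → 0 < e → e ≤ 1 →
    (zc {g : ℝ | T ≤ g ∧ g ≤ 2 * T ∧ Bad T L e g} : ℝ) ≤ C * L ^ (-(c * e ^ 2)) * (T * Real.log T) := by
  obtain ⟨c, A, C, T₀, hc, hc1, hA, hC, H⟩ := core h1 h2 h3 h4 h5
  obtain ⟨CP, TP, hCP, HP⟩ := h6
  have hCpos : 0 < C := by linarith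
  refine ⟨c / 2, max C (max (CP * √C) (CP * √3 * Real.exp (6 * A ^ 2))), max (max T₀ TP) (Real.exp 7), by positivity,
    hC.trans (le_max_left _ _), ?_⟩
  intro T L e hT hL hLT he he1
  simp only [max_le_iff] at hT hL
  obtain ⟨⟨hT₀, hTP⟩, hTe⟩ := hT
  have he7 : (8:ℝ) ≤ Real.exp 7 := by
    have := Real.add_one_le_exp (7:ℝ)
    linarith
  have hT1 : 1 < T := by linarith
  have hT0 : 0 < T := by linarith
  have hlog : 7 ≤ Real.log T := by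
    rw [Real.le_log_iff_exp_le hT0]
    exact hTe
  have hs := sp_pos hT1
  have hs1 : sp T ≤ 1 := by
    unfold sp
    rw [div_le_one (by linarith)]
    have := Real.pi_lt_d2
    linarith
  have hL1 : 1 ≤ L := by linarith
  have hL0 : 0 < L := by linarith
  have hTL : 0 ≤ T * Real.log T := by positivity
  have hsub : ∀ E : Set ℝ, (∀ t ∈ Icc (T / 2) (3 * T), ∀ u : ℝ, |u - t| ≤ sp T → Bad T L e u → t ∈ E) →
      (zc {g : ℝ | T ≤ g ∧ g ≤ 2 * T ∧ Bad T L e g} : ℝ) ≤ (zc {g : ℝ | T ≤ g ∧ g ≤ 2 * T ∧ Icc g (g + sp T) ⊆ E} : ℝ) := by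
    intro E hEt
    have h7 : {g : ℝ | T ≤ g ∧ g ≤ 2 * T ∧ Bad T L e g} ⊆ {g : ℝ | T ≤ g ∧ g ≤ 2 * T ∧ Icc g (g + sp T) ⊆ E} := by
      rintro g ⟨hg1, hg2, hg3⟩
      refine ⟨hg1, hg2, fun t ht => ?_⟩
      refine hEt t ⟨by linarith [ht.1], by linarith [ht.2]⟩ g ?_ hg3
      rw [abs_le]
      constructor <;> linarith [ht.1, ht.2]
    exact_mod_cast Pool.Agent.Helper56.UG.zc_mono h7 (J := {g : ℝ | T ≤ g ∧ g ≤ 2 * T ∧ Icc g (g + sp T) ⊆ E})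
      (a := T) (b := 2 * T) fun g hg => ⟨hg.1, hg.2.1⟩
  by_cases hAe : A * L ^ (-(1 / 12) : ℝ) ≤ e
  · obtain ⟨E, hE, hEt⟩ := H T L e hT₀ hL.1 hLT he he1 hAe
    refine (hsub E hEt).trans ((HP T hTP E (C * L ^ (-(c * e ^ 2))) (by positivity) hE).trans ?_)
    apply mul_le_mul_of_nonneg_right _ hTL
    rw [Real.sqrt_mul hCpos.le, Real.sqrt_eq_rpow (L ^ (-(c * e ^ 2))), ← Real.rpow_mul hL0.le, ← mul_assoc]
    have h8 : -(c * e ^ 2) * (1 / 2) = -(c / 2 * e ^ 2) := by ring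
    rw [h8]
    gcongr
    exact (le_max_left _ _).trans (le_max_right _ _)
  · push Not at hAe
    have h8 := triv_e hc hc1 (by linarith : 0 ≤ A) hL1 he.le hAe.le
    have h9 : L ^ (-(c * e ^ 2)) ≤ L ^ (-(c / 2 * e ^ 2)) := by
      apply Real.rpow_le_rpow_of_exponent_le hL1
      have : 0 ≤ c * e ^ 2 := by positivity
      linarith
    refine (hsub (Icc (T / 2) (3 * T)) fun t ht _ _ _ => ht).trans ((HP T hTP (Icc (T / 2) (3 * T)) 3 (by norm_num) ?_).trans ?_)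
    · rw [Real.volume_Icc]
      apply ENNReal.ofReal_le_ofReal
      linarith
    · apply mul_le_mul_of_nonneg_right _ hTL
      have h10 : CP * √3 = CP * √3 * Real.exp (6 * A ^ 2) * Real.exp (-(6 * A ^ 2)) := by
        rw [mul_assoc, ← Real.exp_add]; simp
      exact h10.le.trans (mul_le_mul ((le_max_right _ _).trans (le_max_right _ _)) (h8.trans h9) (by positivity) (by positivity))

end Pool.Agent.Helper24.NR
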