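import Pool.Agent.Helper24.NR.Defs
import Pool.Agent.Helper24.UG.Ker
import Pool.Agent.Helper24.UG.Win

/-!
# NR: glue, pointwise part
-/

set_option autoImplicit false
open MeasureTheory Set Filter Topology
open Pool.Agent.Helper57.Zeta Pool.Agent.Helper57.LH Pool.Agent.Helper57.ED
open Pool.Agent.Helper54.LG (za zb qk SS MM qk_neg_right qk_zero_nonneg)
open Pool.Agent.Helper93.UG (zc sp)
open Pool.Agent.Helper69.UG (XX NX)
open Pool.Agent.Helper24.UG (summable_q0 zc_fin)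

namespace Pool.Agent.Helper24.NR

lemma sp_pos {T : ℝ} (hT : 1 < T) : 0 < sp T := by
  unfold sp
  have := Real.log_pos hT
  positivity

lemma XX_pos {T M : ℝ} (hT : 1 < T) (hM : 0 < M) : 0 < XX T M := by
  unfold XX
  have := Real.log_pos hT
  positivity

lemma wJ_nonneg (L : ℝ) : 0 ≤ wJ L := by
  unfold wJ
  positivity

lemma phi_nonneg (L x : ℝ) : 0 ≤ phi L x :=
  mul_nonneg (wJ_nonneg L) (Finset.sum_nonneg fun _ _ => qk_zero_nonneg _)

lemma qk_sp {T t : ℝ} (hT : 1 < T) (j : ℕ) (ρ : ZS) :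
    qk 0 (2 * Real.pi * (((ρ : ℂ).im - t) / sp T) / 2 ^ j) = qk 0 (zb (XX T (2 ^ j)) t ρ) := by
  rw [← qk_neg_right]
  congr 1
  unfold sp zb XX
  have := (Real.log_pos hT).ne'
  have := Real.pi_pos.ne'
  field_simp
  ring

lemma summable_phi {T L t : ℝ} (hT : 1 < T) : Summable fun ρ : ZS => mx ρ * phi L (((ρ : ℂ).im - t) / sp T) := by
  have h : (fun ρ : ZS => mx ρ * phi L (((ρ : ℂ).im - t) / sp T)) =
      fun ρ : ZS => ∑ j ∈ Js L, wJ L * (mx ρ * qk 0 (zb (XX T (2 ^ j)) t ρ)) := by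
    funext ρ
    unfold phi
    rw [Finset.mul_sum, Finset.mul_sum]
    refine Finset.sum_congr rfl fun j _ => ?_
    rw [qk_sp hT]
    ring
  rw [h]
  exact summable_sum fun j _ => (summable_q0 (XX_pos hT (by positivity)) t).mul_left _

/-- The number of the zeros with ordinate in `t + W s`. -/
noncomputable def cnt (T t : ℝ) (W : Set ℝ) : ℝ := (zc {u : ℝ | (u - t) / sp T ∈ W} : ℝ)

open Classical in
/-- The sum over the zeros outside of `t + W s`, at distance at most `L s`. -/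
noncomputable def osum (T L t : ℝ) (W : Set ℝ) : ℝ :=
  ∑' ρ : ZS, mx ρ * (if |(ρ : ℂ).im - t| ≤ L * sp T ∧ ((ρ : ℂ).im - t) / sp T ∉ W then
    phi L (((ρ : ℂ).im - t) / sp T) else 0)

open Classical in
/-- The prediction from the zeros outside of `t + W s`, at distance at most `L s`. -/
noncomputable def prd (T L t : ℝ) (W : Set ℝ) : ℝ :=
  AL L - ∑' ρ : ZS, mx ρ * (if |(ρ : ℂ).im - t| ≤ L * sp T ∧ ((ρ : ℂ).im - t) / sp T ∉ W then
    phi L (((ρ : ℂ).im - t) / sp T) else 0)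

lemma prd_eq (T L t : ℝ) (W : Set ℝ) : prd T L t W = AL L - osum T L t W := rfl

/-- The failure of the prediction at `t`. -/
def Bad (T L e t : ℝ) : Prop :=
  ∃ W : Set ℝ, W ⊆ Icc (-L ^ (1 / 16 : ℝ)) (L ^ (1 / 16 : ℝ)) ∧ e < |cnt T t W - prd T L t W|

open Classical in
lemma split_sum {T L t : ℝ} (hT : 1 < T) (hL : 1 ≤ L) {W : Set ℝ} (hW : W ⊆ Icc (-L ^ (1 / 16 : ℝ)) (L ^ (1 / 16 : ℝ))) :
    ∃ F : Finset ZS, (∀ ρ : ZS, ρ ∈ F ↔ ((ρ : ℂ).im - t) / sp T ∈ W) ∧ cnt T t W = ∑ ρ ∈ F, mx ρ ∧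
      Tot T L t = Out T L t + osum T L t W + ∑ ρ ∈ F, mx ρ * phi L (((ρ : ℂ).im - t) / sp T) := by
  have hs := sp_pos hT
  have hl : L ^ (1 / 16 : ℝ) ≤ L := by
    calc L ^ (1 / 16 : ℝ) ≤ L ^ (1 : ℝ) := Real.rpow_le_rpow_of_exponent_le hL (by norm_num)
      _ = L := Real.rpow_one L
  have hsub : {u : ℝ | (u - t) / sp T ∈ W} ⊆ Icc (t - L ^ (1 / 16 : ℝ) * sp T) (t + L ^ (1 / 16 : ℝ) * sp T) := by
    intro u hu
    have h1 := hW hu
    rw [mem_Icc, le_div_iff₀ hs, div_le_iff₀ hs] at h1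
    rw [mem_Icc]
    constructor <;> linarith [h1.1, h1.2]
  obtain ⟨F, hF, h1⟩ := zc_fin hsub
  refine ⟨F, fun ρ => hF ρ, h1, ?_⟩
  set g : ZS → ℝ := fun ρ => mx ρ * phi L (((ρ : ℂ).im - t) / sp T) with hg
  have hg0 : ∀ ρ, 0 ≤ g ρ := fun ρ => mul_nonneg (mx_nonneg _) (phi_nonneg _ _)
  have hgs : Summable g := summable_phi hT
  set g1 : ZS → ℝ := fun ρ => mx ρ * (if |(ρ : ℂ).im - t| ≤ L * sp T then 0 else phi L (((ρ : ℂ).im - t) / sp T)) with hg1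
  set g2 : ZS → ℝ := fun ρ => mx ρ * (if |(ρ : ℂ).im - t| ≤ L * sp T ∧ ((ρ : ℂ).im - t) / sp T ∉ W then
    phi L (((ρ : ℂ).im - t) / sp T) else 0) with hg2
  set g3 : ZS → ℝ := fun ρ => if ρ ∈ F then g ρ else 0 with hg3
  have e : ∀ ρ, g ρ = g1 ρ + g2 ρ + g3 ρ := by
    intro ρ
    simp only [hg1, hg2, hg3, hg]
    by_cases ha : |(ρ : ℂ).im - t| ≤ L * sp T
    · by_cases hb : ((ρ : ℂ).im - t) / sp T ∈ W
      · have hc : ρ ∈ F := (hF ρ).2 hb
        simp [ha, hb, hc]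
      · have hc : ρ ∉ F := fun h => hb ((hF ρ).1 h)
        simp [ha, hb, hc]
    · have hb : ((ρ : ℂ).im - t) / sp T ∉ W := by
        intro h
        have h2 := hW h
        rw [mem_Icc, le_div_iff₀ hs, div_le_iff₀ hs] at h2
        apply ha
        rw [abs_le]
        have : L ^ (1 / 16 : ℝ) * sp T ≤ L * sp T := mul_le_mul_of_nonneg_right hl hs.le
        constructor <;> linarith [h2.1, h2.2]
      have hc : ρ ∉ F := fun h => hb ((hF ρ).1 h)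
      simp [ha, hc]
  have s1 : Summable g1 := by
    refine Summable.of_nonneg_of_le (fun ρ => ?_) (fun ρ => ?_) hgs
    · simp only [hg1]
      split_ifs
      · simp
      · exact hg0 ρ
    · simp only [hg1]
      split_ifs
      · simpa using hg0 ρ
      · exact le_refl _
  have s2 : Summable g2 := by
    refine Summable.of_nonneg_of_le (fun ρ => ?_) (fun ρ => ?_) hgs
    · simp only [hg2]
      split_ifs
      · exact hg0 ρ
      · simp
    · simp only [hg2]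
      split_ifs
      · exact le_refl _
      · simpa using hg0 ρ
  have s3 : ∑' ρ, g3 ρ = ∑ ρ ∈ F, g ρ := by
    rw [tsum_eq_sum (s := F)]
    · exact Finset.sum_congr rfl fun ρ hρ => by simp [hg3, hρ]
    · intro ρ hρ
      simp [hg3, hρ]
  have s3' : Summable g3 := by
    refine summable_of_ne_finset_zero (s := F) fun ρ hρ => ?_
    simp [hg3, hρ]
  have h5 : Tot T L t = ∑' ρ, (g1 ρ + g2 ρ + g3 ρ) := tsum_congr e
  rw [h5, (s1.add s2).tsum_add s3', s1.tsum_add s2, s3]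
  rfl

/-- H: pointwise -/
theorem bad_imp (phi_near : ∃ C : ℝ, 1 ≤ C ∧ ∀ L x : ℝ, C ≤ L → |x| ≤ L ^ (1 / 16 : ℝ) →
      0 ≤ 1 - phi L x ∧ 1 - phi L x ≤ C * L ^ (-(5 / 24) : ℝ)) :
    ∃ C : ℝ, 1 ≤ C ∧ ∀ T L e t : ℝ, 3 ≤ T → C ≤ L → C * L ^ (-(1 / 12) : ℝ) ≤ e → Bad T L e t →
    e / 2 < |Tot T L t - AL L| ∨ L ^ (-(1 / 12) : ℝ) < Out T L t ∨ L ^ (1 / 8 : ℝ) < (zc (Wn T L 1 t) : ℝ) := by
  obtain ⟨C, hC, hphi⟩ := phi_near
  refine ⟨2 * (C + 1), by linarith, ?_⟩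
  intro T L e t hT hL he hB
  by_contra hcon
  push Not at hcon
  obtain ⟨h1, h2, h3⟩ := hcon
  obtain ⟨W, hW, hWe⟩ := hB
  rw [prd_eq] at hWe
  have hT1 : 1 < T := by linarith
  have hs := sp_pos hT1
  have hL1 : 1 ≤ L := by linarith
  have hL0 : 0 < L := by linarith
  have hLC : C ≤ L := by linarith
  obtain ⟨F, hF, hcnt, hTot⟩ := split_sum (t := t) hT1 hL1 hW
  have hOut : 0 ≤ Out T L t := by
    unfold Out
    refine tsum_nonneg fun ρ => ?_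
    split_ifs
    · simp
    · exact mul_nonneg (mx_nonneg _) (phi_nonneg _ _)
  have h4 : cnt T t W - (AL L - osum T L t W) = (Tot T L t - AL L) - Out T L t +
      ∑ ρ ∈ F, mx ρ * (1 - phi L (((ρ : ℂ).im - t) / sp T)) := by
    have : ∑ ρ ∈ F, mx ρ * (1 - phi L (((ρ : ℂ).im - t) / sp T)) = ∑ ρ ∈ F, mx ρ - ∑ ρ ∈ F, mx ρ * phi L (((ρ : ℂ).im - t) / sp T) := by
      rw [← Finset.sum_sub_distrib]
      exact Finset.sum_congr rfl fun ρ _ => by ring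
    rw [this, hTot, hcnt]
    ring
  have h5 : 0 ≤ ∑ ρ ∈ F, mx ρ * (1 - phi L (((ρ : ℂ).im - t) / sp T)) ∧
      ∑ ρ ∈ F, mx ρ * (1 - phi L (((ρ : ℂ).im - t) / sp T)) ≤ C * L ^ (-(5 / 24) : ℝ) * (zc (Wn T L 1 t) : ℝ) := by
    have hx : ∀ ρ ∈ F, |((ρ : ℂ).im - t) / sp T| ≤ L ^ (1 / 16 : ℝ) := by
      intro ρ hρ
      have := hW ((hF ρ).1 hρ)
      rw [abs_le]
      exact this
    constructor
    · exact Finset.sum_nonneg fun ρ hρ => mul_nonneg (mx_nonneg _) (hphi L _ hLC (hx ρ hρ)).1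
    · obtain ⟨F', hF', h6⟩ := zc_fin (I := Wn T L 1 t) (a := t - 1 * L ^ (1 / 16 : ℝ) * sp T)
        (b := t + 1 * L ^ (1 / 16 : ℝ) * sp T) subset_rfl
      have hFF : F ⊆ F' := by
        intro ρ hρ
        rw [hF' ρ]
        have h7 := abs_le.1 (hx ρ hρ)
        rw [le_div_iff₀ hs, div_le_iff₀ hs] at h7
        unfold Wn
        rw [mem_Icc]
        constructor <;> linarith [h7.1, h7.2]
      calc ∑ ρ ∈ F, mx ρ * (1 - phi L (((ρ : ℂ).im - t) / sp T)) ≤ ∑ ρ ∈ F, mx ρ * (C * L ^ (-(5 / 24) : ℝ)) :=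
            Finset.sum_le_sum fun ρ hρ => mul_le_mul_of_nonneg_left (hphi L _ hLC (hx ρ hρ)).2 (mx_nonneg _)
        _ = C * L ^ (-(5 / 24) : ℝ) * ∑ ρ ∈ F, mx ρ := by rw [← Finset.sum_mul]; ring
        _ ≤ C * L ^ (-(5 / 24) : ℝ) * ∑ ρ ∈ F', mx ρ := by
            refine mul_le_mul_of_nonneg_left ?_ (by positivity)
            exact Finset.sum_le_sum_of_subset_of_nonneg hFF fun ρ _ _ => mx_nonneg _
        _ = _ := by rw [h6]
  have h6 : C * L ^ (-(5 / 24) : ℝ) * (zc (Wn T L 1 t) : ℝ) ≤ C * L ^ (-(1 / 12) : ℝ) := by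
    calc C * L ^ (-(5 / 24) : ℝ) * (zc (Wn T L 1 t) : ℝ) ≤ C * L ^ (-(5 / 24) : ℝ) * L ^ (1 / 8 : ℝ) :=
          mul_le_mul_of_nonneg_left h3 (by positivity)
      _ = C * (L ^ (-(5 / 24) : ℝ) * L ^ (1 / 8 : ℝ)) := by ring
      _ = C * L ^ (-(1 / 12) : ℝ) := by
          rw [← Real.rpow_add hL0]
          norm_num
  have h7 : |cnt T t W - (AL L - osum T L t W)| ≤ e := by
    rw [h4, abs_le]
    have h8 := abs_le.1 h1
    have h9 : 2 * (C + 1) * L ^ (-(1 / 12) : ℝ) ≤ e := he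
    have h10 : 0 ≤ L ^ (-(1 / 12) : ℝ) := by positivity
    constructor <;> nlinarith [h8.1, h8.2, h5.1, h5.2, h6, h2, hOut]
  linarith

end Pool.Agent.Helper24.NR
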